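import Mathlib

/-!
Selective high divergence passes from a space to its Pixley-Roy hyperspace.

No separation axiom is needed. Given non-empty open sets of the hyperspace, shrink them to basic
sets `[Fₙ, Vₙ]`, choose `xₙ ∈ Vₙ` so that `(xₙ)` has no convergent subsequences, and take
`Fₙ ∪ {xₙ}`. If a subsequence converged to `H`, then `xₙ` would be eventually (along the
subsequence) in every open set containing the finite set `H`, so that a subsequence of `(xₙ)` would
converge to a point of `H`.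
-/

namespace Pool.Agent.Results.MP_3a5480_gt.PixleyRoySHD

open Set Filter Topology

universe u

/-- `X` is selectively highly divergent: for every sequence of non-empty open sets one can choose
points in these sets so that the sequence of points has no convergent subsequences. -/
def SHD (X : Type u) [TopologicalSpace X] : Prop :=
  ∀ U : ℕ → Set X, (∀ n, IsOpen (U n)) → (∀ n, (U n).Nonempty) →
    ∃ x : ℕ → X, (∀ n, x n ∈ U n) ∧
      ∀ φ : ℕ → ℕ, StrictMono φ → ∀ a : X, ¬ Tendsto (fun k => x (φ k)) atTop (𝓝 a)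

/-- The set of non-empty finite subsets of `X`. -/
def PixleyRoy (X : Type u) : Type u := {F : Finset X // F.Nonempty}

/-- The set `[F, V] = {H : F ⊆ H ⊆ V}`. -/
def box {X : Type u} (F : PixleyRoy X) (V : Set X) : Set (PixleyRoy X) :=
  {H | F.1 ⊆ H.1 ∧ (H.1 : Set X) ⊆ V}

/-- The Pixley-Roy topology: a set is open if and only if together with each of its members `F` it
contains `[F, V]` for some open `V ⊇ F`. -/
instance pixleyRoyTopology (X : Type u) [TopologicalSpace X] : TopologicalSpace (PixleyRoy X) where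
  IsOpen W := ∀ F ∈ W, ∃ V : Set X, IsOpen V ∧ (F.1 : Set X) ⊆ V ∧ box F V ⊆ W
  isOpen_univ := fun _ _ => ⟨univ, isOpen_univ, subset_univ _, subset_univ _⟩
  isOpen_inter := by
    intro W W' h h' F hF
    obtain ⟨V, h1, h2, h3⟩ := h F hF.1
    obtain ⟨V', h1', h2', h3'⟩ := h' F hF.2
    exact ⟨V ∩ V', h1.inter h1', subset_inter h2 h2', fun H hH =>
      ⟨h3 ⟨hH.1, hH.2.trans inter_subset_left⟩, h3' ⟨hH.1, hH.2.trans inter_subset_right⟩⟩⟩
  isOpen_sUnion := by
    intro 𝒲 h F hF
    obtain ⟨W, hW, hFW⟩ := hF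
    obtain ⟨V, h1, h2, h3⟩ := h W hW F hFW
    exact ⟨V, h1, h2, fun H hH => ⟨W, hW, h3 hH⟩⟩

theorem isOpen_box {X : Type u} [TopologicalSpace X] (F : PixleyRoy X) {V : Set X}
    (hV : IsOpen V) : IsOpen (box F V) :=
  fun _ hH => ⟨V, hV, hH.2, fun _ hK => ⟨hH.1.trans hK.1, hK.2⟩⟩

/-- The sets `[F, V]` with `V` open and `F ⊆ V` form a local base at `F`. -/
theorem nhds_hasBasis {X : Type u} [TopologicalSpace X] (F : PixleyRoy X) :
    (𝓝 F).HasBasis (fun V : Set X => IsOpen V ∧ (F.1 : Set X) ⊆ V) (box F) := by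
  refine ⟨fun W => ⟨fun hW => ?_, ?_⟩⟩
  · obtain ⟨W', h1, h2, h3⟩ := mem_nhds_iff.1 hW
    obtain ⟨V, hV, hFV, hb⟩ := h2 F h3
    exact ⟨V, ⟨hV, hFV⟩, hb.trans h1⟩
  · rintro ⟨V, ⟨hV, hFV⟩, hb⟩
    exact mem_of_superset ((isOpen_box F hV).mem_nhds ⟨subset_rfl, hFV⟩) hb

/-- If no subsequence of `x` converges to a point of the finite set `S`, then every subsequence has a
subsequence outside some open set containing `S`. -/
theorem exists_avoid {X : Type u} [TopologicalSpace X] (x : ℕ → X)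
    (hx : ∀ φ : ℕ → ℕ, StrictMono φ → ∀ a : X, ¬ Tendsto (fun k => x (φ k)) atTop (𝓝 a))
    (S : Finset X) : ∀ φ : ℕ → ℕ, StrictMono φ → ∃ V : Set X, IsOpen V ∧ (S : Set X) ⊆ V ∧
      ∃ ψ : ℕ → ℕ, StrictMono ψ ∧ ∀ k, x (φ (ψ k)) ∉ V := by
  classical
  induction S using Finset.induction with
  | empty => exact fun φ _ => ⟨∅, isOpen_empty, by simp, id, strictMono_id, fun _ h => h⟩
  | insert a S ha ih =>
    intro φ hφ
    obtain ⟨V, hV, hSV, ψ, hψ, hout⟩ := ih φ hφ
    have h1 := hx (φ ∘ ψ) (hφ.comp hψ) a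
    rw [tendsto_nhds] at h1
    push Not at h1
    obtain ⟨W, hW, haW, hnot⟩ := h1
    have h2 : ∃ᶠ k in atTop, x (φ (ψ k)) ∉ W := fun h => hnot (by
      filter_upwards [h] with k hk
      simpa using hk)
    obtain ⟨χ, hχ, hout'⟩ := extraction_of_frequently_atTop h2
    refine ⟨V ∪ W, hV.union hW, ?_, ψ ∘ χ, hψ.comp hχ, fun k hk => ?_⟩
    · rw [Finset.coe_insert]
      exact insert_subset (Or.inr haW) (hSV.trans subset_union_left)
    · rcases hk with hk | hk
      · exact hout _ hk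
      · exact hout' _ hk

/-- If `X` is selectively highly divergent, then so is its Pixley-Roy hyperspace. -/
theorem result (X : Type u) [TopologicalSpace X] : SHD X → SHD (PixleyRoy X) := by
  classical
  intro hX U hU hne
  choose F hF using hne
  have hV : ∀ n, ∃ V : Set X, IsOpen V ∧ ((F n).1 : Set X) ⊆ V ∧ box (F n) V ⊆ U n :=
    fun n => hU n (F n) (hF n)
  choose V hVo hFV hbox using hV
  obtain ⟨x, hxV, hx⟩ := hX V hVo fun n => by
    obtain ⟨y, hy⟩ := (F n).2
    exact ⟨y, hFV n hy⟩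
  let H : ℕ → PixleyRoy X := fun n => ⟨insert (x n) (F n).1, Finset.insert_nonempty _ _⟩
  refine ⟨H, fun n => hbox n ⟨Finset.subset_insert _ _, ?_⟩, ?_⟩
  · change ((insert (x n) (F n).1 : Finset X) : Set X) ⊆ V n
    rw [Finset.coe_insert]
    exact insert_subset (hxV n) (hFV n)
  · intro φ hφ K hK
    obtain ⟨W, hW, hKW, ψ, hψ, hout⟩ := exists_avoid x hx K.1 φ hφ
    have h1 : ∀ᶠ k in atTop, H (φ k) ∈ box K W :=
      hK ((nhds_hasBasis K).mem_of_mem ⟨hW, hKW⟩)
    obtain ⟨k, hk⟩ := (hψ.tendsto_atTop.eventually h1).exists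
    exact hout k (hk.2 (Finset.mem_coe.2 (Finset.mem_insert_self _ _)))

end Pool.Agent.Results.MP_3a5480_gt.PixleyRoySHD
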